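import Mathlib

/-!
# A model of the first uncountable ordinal as a type
-/

namespace Pool.Agent.V1160.OmegaOne

open Cardinal Ordinal Set

/-- The set of countable ordinals, as a well-ordered type. -/
abbrev W1 : Type := (Cardinal.aleph 1).ord.ToType

theorem uncountable_W1 : Uncountable W1 := by
  rw [← Cardinal.aleph0_lt_mk_iff, Cardinal.mk_ord_toType]
  exact Cardinal.aleph0_lt_aleph_one

theorem countable_Iio (a : W1) : (Iio a).Countable := by
  rw [← Cardinal.le_aleph0_iff_set_countable, ← Cardinal.lt_aleph_one_iff]
  simpa using Cardinal.mk_Iio_lt a (by simp)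

theorem countable_Iic (a : W1) : (Iic a).Countable := by
  rw [← Iio_insert]
  exact (countable_Iio a).insert a

end Pool.Agent.V1160.OmegaOne
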