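import Mathlib

/-!
# A Boolean `G_δ`-dense group without convergent sequences (in ZFC)

`T` is the type of countably branching well-founded trees with labels in `Z/2`; the group `B`
is the subgroup of `(Z/2)^T` generated by vectors `x t`, `t : T`.
-/

namespace Pool.Agent.V1160.Sirota

open Filter Topology Set

/-- Countably branching labelled well-founded trees. -/
inductive T : Type
  | base : T
  | node (e : ℕ → T) (φ : ℕ → ZMod 2) : T

/-- `t` is a child of `s`. -/
def IsChild (t : T) : T → Prop
  | T.base => False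
  | T.node e _ => ∃ n, e n = t

theorem not_child_child : ∀ s t : T, IsChild t s → ¬ IsChild s t := by
  intro s
  induction s with
  | base => intro t h; exact absurd h id
  | node e φ ih =>
    rintro t ⟨n, rfl⟩ h
    exact ih n _ h ⟨n, rfl⟩

open Classical in
/-- the label of the child `r` of `s`. -/
noncomputable def label (s r : T) : ZMod 2 :=
  match s with
  | T.base => 0
  | T.node e φ => if h : ∃ n, e n = r then φ h.choose else 0

theorem label_node (e : ℕ → T) (f : T → ZMod 2) (n : ℕ) :
    label (T.node e (f ∘ e)) (e n) = f (e n) := by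
  have h : ∃ m, e m = e n := ⟨n, rfl⟩
  have h1 : label (T.node e (f ∘ e)) (e n) = (f ∘ e) h.choose := dif_pos h
  rw [h1, Function.comp, h.choose_spec]

open Classical in
/-- The generating vectors. -/
noncomputable def x (t s : T) : ZMod 2 :=
  if IsChild t s then label s t else if IsChild s t then label t s else 0

theorem x_row (e : ℕ → T) (f : T → ZMod 2) (n : ℕ) :
    x (T.node e (f ∘ e)) (e n) = f (e n) := by
  have h1 : IsChild (e n) (T.node e (f ∘ e)) := ⟨n, rfl⟩
  have h2 : ¬ IsChild (T.node e (f ∘ e)) (e n) := not_child_child _ _ h1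
  rw [x, if_neg h2, if_pos h1, label_node]

theorem x_col (e : ℕ → T) (f : T → ZMod 2) (n : ℕ) :
    x (e n) (T.node e (f ∘ e)) = f (e n) := by
  have h1 : IsChild (e n) (T.node e (f ∘ e)) := ⟨n, rfl⟩
  rw [x, if_pos h1, label_node]

/-- The group generated by the vectors `x t`. -/
noncomputable def B : AddSubgroup (T → ZMod 2) := AddSubgroup.closure (range x)

theorem x_mem (t : T) : x t ∈ B := AddSubgroup.subset_closure (mem_range_self t)

/-- `B` is `G_δ`-dense in `(Z/2)^T`. -/
theorem exists_countable {A : Set T} (hA : A.Countable) (f : T → ZMod 2) :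
    ∃ b ∈ B, ∀ a ∈ A, b a = f a := by
  rcases A.eq_empty_or_nonempty with rfl | hne
  · exact ⟨0, B.zero_mem, fun a ha => absurd ha (notMem_empty a)⟩
  · obtain ⟨e, rfl⟩ := hA.exists_eq_range hne
    refine ⟨x (T.node e (f ∘ e)), x_mem _, ?_⟩
    rintro _ ⟨n, rfl⟩
    exact x_row e f n

theorem exists_countable_support {b : T → ZMod 2} (hb : b ∈ B) :
    ∃ E : Set T, E.Countable ∧ b ∈ AddSubgroup.closure (x '' E) := by
  induction hb using AddSubgroup.closure_induction with
  | mem y hy =>
    obtain ⟨t, rfl⟩ := hy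
    exact ⟨{t}, countable_singleton t, AddSubgroup.subset_closure ⟨t, rfl, rfl⟩⟩
  | zero => exact ⟨∅, countable_empty, AddSubgroup.zero_mem _⟩
  | neg y _ ih =>
    obtain ⟨E, hE, hy⟩ := ih
    exact ⟨E, hE, AddSubgroup.neg_mem _ hy⟩
  | add y z _ _ ihy ihz =>
    obtain ⟨E, hE, hy⟩ := ihy
    obtain ⟨F, hF, hz⟩ := ihz
    refine ⟨E ∪ F, hE.union hF, AddSubgroup.add_mem _ ?_ ?_⟩
    · exact AddSubgroup.closure_mono (image_mono subset_union_left) hy
    · exact AddSubgroup.closure_mono (image_mono subset_union_right) hz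

/-- Each functional is a coordinate on a given countably generated subgroup. -/
theorem exists_coordinate {E : Set T} (hE : E.Countable) (ψ : (T → ZMod 2) →+ ZMod 2) :
    ∃ s : T, ∀ b ∈ AddSubgroup.closure (x '' E), b s = ψ b := by
  rcases E.eq_empty_or_nonempty with rfl | hne
  · refine ⟨T.base, fun b hb => ?_⟩
    rw [image_empty, AddSubgroup.closure_empty, AddSubgroup.mem_bot] at hb
    rw [hb, map_zero]
    rfl
  · obtain ⟨e, rfl⟩ := hE.exists_eq_range hne
    refine ⟨T.node e ((fun t => ψ (x t)) ∘ e), fun b hb => ?_⟩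
    induction hb using AddSubgroup.closure_induction with
    | mem y hy =>
      obtain ⟨_, ⟨n, rfl⟩, rfl⟩ := hy
      exact x_col e (fun t => ψ (x t)) n
    | zero => rw [map_zero]; rfl
    | neg y _ ih => rw [map_neg, ← ih]; rfl
    | add y z _ _ ihy ihz => rw [map_add, ← ihy, ← ihz]; rfl

/-- In a vector space over `Z/2`, each infinite set contains an infinite set on which some
functional is constantly one. -/
theorem exists_functional {V : Type*} [AddCommGroup V] [Module (ZMod 2) V] (c : ℕ → V)
    (hc : Function.Injective c) :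
    ∃ ψ : V →ₗ[ZMod 2] ZMod 2, {n | ψ (c n) = 1}.Infinite := by
  obtain ⟨b, hbc, hspan, hli⟩ := exists_linearIndependent (ZMod 2) (range c)
  have hbinf : b.Infinite := by
    intro hfin
    have : Finite (Submodule.span (ZMod 2) b) := by
      have := hfin.to_subtype
      have : Module.Finite (ZMod 2) (Submodule.span (ZMod 2) b) :=
        Module.Finite.span_of_finite _ hfin
      exact Module.finite_of_finite (ZMod 2)
    have h2 : (range c) ⊆ (Submodule.span (ZMod 2) b : Set V) := by
      rw [hspan]
      exact Submodule.subset_span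
    exact (infinite_range_of_injective hc) ((Set.toFinite _).subset h2)
  obtain ⟨ψ, hψ⟩ := ((Module.Basis.span hli).constr (ZMod 2) fun _ => (1 : ZMod 2)).exists_extend
  refine ⟨ψ, fun hfin => hbinf ((hfin.image c).subset ?_)⟩
  intro y hy
  obtain ⟨n, rfl⟩ := hbc hy
  refine ⟨n, ?_, rfl⟩
  have h1 := LinearMap.congr_fun hψ (Module.Basis.span hli ⟨c n, hy⟩)
  rw [Module.Basis.constr_basis] at h1
  rw [LinearMap.comp_apply] at h1
  have h2 : ((Submodule.span (ZMod 2) (range (Subtype.val : b → V))).subtype
      (Module.Basis.span hli ⟨c n, hy⟩)) = c n :=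
    congrArg Subtype.val (Module.Basis.span_apply hli ⟨c n, hy⟩)
  change ψ (c n) = 1
  rw [← h2]
  exact h1

/-- `B` has no non-trivial convergent sequences. -/
theorem no_convergent (c : ℕ → B) (hc : Function.Injective c) (y : B) :
    ¬ Tendsto c atTop (𝓝 y) := by
  intro hlim
  choose E hE hcE using fun n => exists_countable_support (c n - y : B).2
  have hEc : (⋃ n, E n).Countable := countable_iUnion hE
  have hinj : Function.Injective fun n => ((c n - y : B) : T → ZMod 2) := by
    intro i j hij
    have : c i - y = c j - y := Subtype.ext hij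
    exact hc (sub_left_injective this)
  obtain ⟨ψ, hψ⟩ := exists_functional _ hinj
  obtain ⟨s, hs⟩ := exists_coordinate hEc ψ.toAddMonoidHom
  have hval : ∀ n, ((c n - y : B) : T → ZMod 2) s = ψ ((c n - y : B) : T → ZMod 2) := fun n =>
    hs _ (AddSubgroup.closure_mono (image_mono (subset_iUnion E n)) (hcE n))
  have hcont : Continuous fun b : B => ((b - y : B) : T → ZMod 2) s := by
    have h1 : Continuous fun b : B => (b : T → ZMod 2) s :=
      (continuous_apply s).comp continuous_subtype_val
    exact h1.sub continuous_const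
  have hlim' := (hcont.tendsto y).comp hlim
  have h0 : ((y - y : B) : T → ZMod 2) s = 0 := by rw [sub_self]; rfl
  rw [h0, nhds_discrete, tendsto_pure] at hlim'
  apply hψ
  obtain ⟨N, hN⟩ := eventually_atTop.1 hlim'
  refine (finite_Iio N).subset fun n hn => ?_
  by_contra hle
  have h1 := hN n (not_lt.1 hle)
  have h2 : ψ ((c n - y : B) : T → ZMod 2) = 0 := by
    rw [← hval]
    exact h1
  have hn' : ψ ((c n - y : B) : T → ZMod 2) = 1 := hn
  rw [h2] at hn'
  exact absurd hn' (by decide)

theorem infinite_T : Infinite T := by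
  refine Infinite.of_injective (fun n : ℕ => T.node (fun _ => T.base) (Pi.single n 1)) ?_
  intro i j hij
  have h : (Pi.single i 1 : ℕ → ZMod 2) = Pi.single j 1 := by
    injection hij
  by_contra hne
  have h1 := congrFun h i
  rw [Pi.single_eq_same, Pi.single_eq_of_ne hne] at h1
  exact absurd h1 (by decide)

theorem nhds_basis {s : Set (T → ZMod 2)} {y : T → ZMod 2} (hs : s ∈ 𝓝 y) :
    ∃ F : Finset T, ∀ z : T → ZMod 2, (∀ i ∈ F, z i = y i) → z ∈ s := by
  obtain ⟨t, hts, hto, hxt⟩ := mem_nhds_iff.1 hs
  obtain ⟨F, u, hu, hsub⟩ := isOpen_pi_iff.1 hto y hxt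
  refine ⟨F, fun z hz => hts (hsub fun i hi => ?_)⟩
  rw [hz i hi]
  exact (hu i hi).2

/-- basic neighbourhoods in `B`. -/
theorem nhds_basis_B {U : Set B} {y : B} (hU : U ∈ 𝓝 y) :
    ∃ F : Finset T, ∀ z : B, (∀ i ∈ F, (z : T → ZMod 2) i = (y : T → ZMod 2) i) → z ∈ U := by
  obtain ⟨s, hs, hsU⟩ := (mem_nhds_subtype _ _ _).1 hU
  obtain ⟨F, hF⟩ := nhds_basis hs
  exact ⟨F, fun z hz => hsU (hF _ hz)⟩

theorem isOpen_cyl (F : Finset T) (f : T → ZMod 2) :
    IsOpen {z : B | ∀ i ∈ F, (z : T → ZMod 2) i = f i} := by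
  have : {z : B | ∀ i ∈ F, (z : T → ZMod 2) i = f i} =
      ⋂ i ∈ F, {z : B | (z : T → ZMod 2) i = f i} := by
    ext z; simp
  rw [this]
  refine isOpen_biInter_finset fun i _ => ?_
  have h1 : Continuous fun b : B => (b : T → ZMod 2) i :=
    (continuous_apply i).comp continuous_subtype_val
  exact (isOpen_discrete ({f i} : Set (ZMod 2))).preimage h1

end Pool.Agent.V1160.Sirota
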