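import Mathlib
import Pool.Agent.V1160.OmegaOne

/-!
# Closing off, pressing down and ladders on the first uncountable ordinal
-/

namespace Pool.Agent.V1160.Ladders

open Set Pool.Agent.V1160.OmegaOne

/-- Countable sets of countable ordinals are strictly bounded. -/
theorem exists_bound {S : Set W1} (hS : S.Countable) : ∃ b, ∀ x ∈ S, x < b := by
  by_contra hcon
  push Not at hcon
  have : (univ : Set W1) ⊆ ⋃ x ∈ S, Iic x := fun b _ => by
    obtain ⟨x, hx, hbx⟩ := hcon b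
    exact mem_iUnion₂.2 ⟨x, hx, hbx⟩
  have hu := uncountable_W1
  exact not_countable_univ (α := W1) ((hS.biUnion fun x _ => countable_Iic x).mono this)

/-- Limit elements. -/
def Lim (x : W1) : Prop := (∃ a, a < x) ∧ ∀ a < x, ∃ b, a < b ∧ b < x

theorem exists_closed (g : W1 → W1) (a₀ : W1) : ∃ d, Lim d ∧ a₀ < d ∧ ∀ a < d, g a < d := by
  have hstep : ∀ x : W1, ∃ y, x < y ∧ ∀ a ≤ x, g a < y := by
    intro x
    obtain ⟨b, hb⟩ := exists_bound (((countable_Iic x).image g).insert x)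
    exact ⟨b, hb x (mem_insert _ _), fun a ha => hb _ (mem_insert_of_mem _ (mem_image_of_mem g ha))⟩
  choose nxt hn1 hn2 using hstep
  let s : ℕ → W1 := fun n => Nat.rec a₀ (fun _ x => nxt x) n
  have hs : ∀ n, s (n + 1) = nxt (s n) := fun _ => rfl
  obtain ⟨b, hb⟩ := exists_bound (countable_range s)
  let T : Set W1 := {d | ∀ n, s n < d}
  have hT : T.Nonempty := ⟨b, fun n => hb _ (mem_range_self n)⟩
  obtain ⟨d, hd, hmin⟩ := WellFounded.has_min (wellFounded_lt (α := W1)) T hT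
  have hlt : ∀ a < d, ∃ n, a ≤ s n := by
    intro a ha
    by_contra hcon
    push Not at hcon
    exact hmin a hcon ha
  refine ⟨d, ⟨⟨s 0, hd 0⟩, fun a ha => ?_⟩, hd 0, fun a ha => ?_⟩
  · obtain ⟨n, hn⟩ := hlt a ha
    refine ⟨s (n + 1), lt_of_le_of_lt hn ?_, hd (n + 1)⟩
    rw [hs]
    exact hn1 _
  · obtain ⟨n, hn⟩ := hlt a ha
    have h1 : g a < s (n + 1) := by
      rw [hs]
      exact hn2 _ _ hn
    exact h1.trans (hd (n + 1))

/-- A regressive function on the limit elements is constant on an unbounded set. -/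
theorem press (f : W1 → W1) (hf : ∀ x, Lim x → f x < x) :
    ∃ b, ∀ a, ∃ x, a < x ∧ Lim x ∧ f x = b := by
  by_contra hcon
  push Not at hcon
  choose g hg using hcon
  have hne : Nonempty W1 := by
    have := uncountable_W1
    infer_instance
  obtain ⟨d, hd, -, hcl⟩ := exists_closed g hne.some
  exact hg (f d) d (hcl _ (hf d hd)) hd rfl

/-- Unbounded sets are uncountable. -/
theorem uncountable_of_unbounded {S : Set W1} (hS : ∀ a, ∃ x, a < x ∧ x ∈ S) :
    ¬ S.Countable := by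
  intro hc
  obtain ⟨b, hb⟩ := exists_bound hc
  obtain ⟨x, hx, hxS⟩ := hS b
  exact lt_asymm hx (hb x hxS)

theorem unbounded_of_uncountable {S : Set W1} (hS : ¬ S.Countable) :
    ∀ a, ∃ x, a < x ∧ x ∈ S := by
  intro a
  by_contra hcon
  push Not at hcon
  apply hS
  refine (countable_Iic a).mono fun x hx => ?_
  by_contra hlt
  exact hcon x (not_le.1 hlt) hx

theorem exists_ladder {x : W1} (hx : Lim x) : ∃ A : Set W1, A ⊆ Iio x ∧
    (∀ a < x, ∃ b ∈ A, a < b) ∧ ∀ a < x, (A ∩ Iio a).Finite := by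
  obtain ⟨⟨a₀, ha₀⟩, hlim⟩ := hx
  obtain ⟨e, he⟩ := (countable_Iio x).exists_eq_range ⟨a₀, ha₀⟩
  have heI : ∀ n, e n < x := fun n => by
    have : e n ∈ Iio x := he ▸ mem_range_self n
    exact this
  have hstep : ∀ (n : ℕ) (y : Iio x), ∃ z : Iio x, y < z ∧ e n < z := by
    intro n y
    obtain ⟨b, hb1, hb2⟩ := hlim (max (y : W1) (e n)) (max_lt y.2 (heI n))
    refine ⟨⟨b, hb2⟩, ?_, ?_⟩
    · exact Subtype.mk_lt_mk.2 (lt_of_le_of_lt (le_max_left (y : W1) (e n)) hb1)
    · exact lt_of_le_of_lt (le_max_right (y : W1) (e n)) hb1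
  choose nxt h1 h2 using hstep
  let s : ℕ → Iio x := fun n => Nat.rec ⟨a₀, ha₀⟩ (fun n y => nxt n y) n
  have hs : ∀ n, s (n + 1) = nxt n (s n) := fun _ => rfl
  have hmono : StrictMono s := strictMono_nat_of_lt_succ fun n => by rw [hs]; exact h1 _ _
  have hcof : ∀ a < x, ∃ n, a < (s n).1 := by
    intro a ha
    have : a ∈ range e := he ▸ ha
    obtain ⟨n, rfl⟩ := this
    exact ⟨n + 1, by rw [hs]; exact h2 _ _⟩
  refine ⟨range fun n => (s n).1, ?_, ?_, ?_⟩
  · rintro _ ⟨n, rfl⟩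
    exact (s n).2
  · intro a ha
    obtain ⟨n, hn⟩ := hcof a ha
    exact ⟨_, mem_range_self n, hn⟩
  · intro a ha
    obtain ⟨n, hn⟩ := hcof a ha
    refine ((finite_Iio n).image fun n => (s n).1).subset ?_
    rintro _ ⟨⟨m, rfl⟩, hm⟩
    refine mem_image_of_mem _ ?_
    by_contra hle
    have hnm : n ≤ m := not_lt.1 hle
    have : (s n).1 ≤ (s m).1 := hmono.monotone hnm
    exact absurd (lt_of_lt_of_le hn this) (not_lt.2 (le_of_lt hm))

/-- A ladder system: `lad x` is cofinal of type `ω` in limit `x`, and empty otherwise. -/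
theorem exists_ladder_system : ∃ A : W1 → Set W1, (∀ x, A x ⊆ Iio x) ∧
    (∀ x, Lim x → ∀ a < x, ∃ b ∈ A x, a < b) ∧ ∀ x, ∀ a < x, (A x ∩ Iio a).Finite := by
  classical
  have h : ∀ x : W1, ∃ A : Set W1, A ⊆ Iio x ∧ (Lim x → ∀ a < x, ∃ b ∈ A, a < b) ∧
      ∀ a < x, (A ∩ Iio a).Finite := by
    intro x
    by_cases hx : Lim x
    · obtain ⟨A, h1, h2, h3⟩ := exists_ladder hx
      exact ⟨A, h1, fun _ => h2, h3⟩
    · exact ⟨∅, empty_subset _, fun h => absurd h hx, fun a _ => by simp⟩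
  choose A h1 h2 h3 using h
  exact ⟨A, h1, h2, h3⟩

end Pool.Agent.V1160.Ladders
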