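import Mathlib

/-!
# The integers with the Bohr topology

Compact subsets are finite; the evaluation map into the bidual is not continuous, and this
propagates to groups mapping onto it.
-/

namespace Pool.Agent.V1160.BohrZ

open Set Topology Filter Pointwise

universe u

/-- `G` is precompact: for each neighbourhood `U` of the identity there is a finite `F` with
`F * U = G`. -/
def Precompact (G : Type u) [Group G] [TopologicalSpace G] : Prop :=
  ∀ U ∈ 𝓝 (1 : G), ∃ F : Set G, F.Finite ∧ F * U = univ

/-- The evaluation homomorphism `α_G : G → G^^`, `α_G g χ = χ g`, where `PontryaginDual G` is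
the group of continuous homomorphisms `G → Circle` with the compact-open topology. -/
noncomputable def evalHom (G : Type u) [CommGroup G] [TopologicalSpace G] :
    G →* PontryaginDual (PontryaginDual G) where
  toFun g :=
    { toFun := fun χ => χ g
      map_one' := rfl
      map_mul' := fun _ _ => rfl
      continuous_toFun := continuous_eval_const (F := G →ₜ* Circle) g }
  map_one' := by
    refine PontryaginDual.ext fun χ => ?_
    exact map_one χ
  map_mul' := fun x y => by
    refine PontryaginDual.ext fun χ => ?_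
    exact map_mul χ x y

@[simp] theorem evalHom_apply {G : Type u} [CommGroup G] [TopologicalSpace G] (g : G)
    (χ : PontryaginDual G) : evalHom G g χ = χ g := rfl

/-- `G` is reflexive: `α_G` is a topological isomorphism. -/
def Reflexive (G : Type u) [CommGroup G] [TopologicalSpace G] : Prop :=
  IsHomeomorph (evalHom G)

/-- The group of integers, written multiplicatively, to be given the Bohr topology. -/
def BZ : Type := Multiplicative ℤ

instance : CommGroup BZ := inferInstanceAs (CommGroup (Multiplicative ℤ))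

/-- the integer underlying an element of `BZ`. -/
def BZ.toInt (n : BZ) : ℤ := Multiplicative.toAdd n

/-- the element of `BZ` underlying an integer. -/
def BZ.ofInt (n : ℤ) : BZ := Multiplicative.ofAdd n

theorem toInt_mul (m n : BZ) : (m * n).toInt = m.toInt + n.toInt := rfl
theorem toInt_one : (1 : BZ).toInt = 0 := rfl
theorem toInt_inv (n : BZ) : (n⁻¹).toInt = - n.toInt := rfl
theorem toInt_ofInt (n : ℤ) : (BZ.ofInt n).toInt = n := rfl
theorem toInt_injective : Function.Injective BZ.toInt := fun _ _ h => h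

/-- All characters of the integers at once: `n ↦ (z ↦ z ^ n)`. -/
noncomputable def allChars : BZ →* (Circle → Circle) where
  toFun n z := z ^ n.toInt
  map_one' := by funext z; rfl
  map_mul' m n := by funext z; exact zpow_add z m.toInt n.toInt

/-- The Bohr topology: the coarsest topology making all the characters `n ↦ z ^ n` continuous. -/
noncomputable instance : TopologicalSpace BZ := TopologicalSpace.induced allChars Pi.topologicalSpace

instance : IsTopologicalGroup BZ := topologicalGroup_induced allChars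

theorem isInducing_allChars : IsInducing (allChars : BZ → Circle → Circle) := ⟨rfl⟩

/-- `z ↦ z ^ n` evaluated at some point is `-1`. -/
theorem exists_pow_eq_neg_one {n : ℤ} (hn : n ≠ 0) : ∃ z : Circle, ((z ^ n : Circle) : ℂ) = -1 := by
  refine ⟨Circle.exp (Real.pi / n), ?_⟩
  have hn' : (n : ℝ) ≠ 0 := by exact_mod_cast hn
  rw [← Circle.exp_zsmul]
  have : n • (Real.pi / n) = Real.pi := by
    rw [zsmul_eq_mul]; field_simp
  rw [this, Circle.coe_exp]
  exact Complex.exp_pi_mul_I

theorem continuous_char (z : Circle) : Continuous fun n : BZ => z ^ n.toInt :=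
  (continuous_apply z).comp isInducing_allChars.continuous

instance : T2Space BZ := by
  refine T2Space.of_injective_continuous (f := (allChars : BZ → Circle → Circle)) ?_
    isInducing_allChars.continuous
  intro m n h
  by_contra hne
  have hmn : m.toInt - n.toInt ≠ 0 := fun h0 => hne (toInt_injective (by omega))
  obtain ⟨z, hz⟩ := exists_pow_eq_neg_one hmn
  have h1 : z ^ m.toInt = z ^ n.toInt := congrFun h z
  rw [zpow_sub, h1, mul_inv_cancel] at hz
  norm_num at hz

/-- A group with an inducing homomorphism to a compact group is precompact. -/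
theorem precompact_of_inducing {H L : Type*} [Group H] [TopologicalSpace H] [Group L]
    [TopologicalSpace L] [IsTopologicalGroup L] [CompactSpace L] (f : H →* L)
    (hf : IsInducing f) : Precompact H := by
  intro U hU
  rw [hf.nhds_eq_comap, map_one] at hU
  obtain ⟨W, hW, hWU⟩ := hU
  obtain ⟨V, hVo, h1V, hV⟩ : ∃ V : Set L, IsOpen V ∧ 1 ∈ V ∧
      ∀ a ∈ V, ∀ b ∈ V, a⁻¹ * b ∈ W := by
    have hc : Continuous fun p : L × L => p.1⁻¹ * p.2 := by
      fun_prop
    have h0 : (fun p : L × L => p.1⁻¹ * p.2) ⁻¹' W ∈ 𝓝 ((1, 1) : L × L) := by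
      apply hc.continuousAt
      simpa using hW
    rw [nhds_prod_eq, Filter.mem_prod_iff] at h0
    obtain ⟨A, hA, B, hB, hAB⟩ := h0
    obtain ⟨V, hVsub, hVo, h1⟩ := mem_nhds_iff.1 (Filter.inter_mem hA hB)
    exact ⟨V, hVo, h1, fun a ha b hb =>
      hAB (show (a, b) ∈ A ×ˢ B from ⟨(hVsub ha).1, (hVsub hb).2⟩)⟩
  have hcov : (univ : Set L) ⊆ ⋃ t : L, (fun x => t⁻¹ * x) ⁻¹' V := by
    intro x _
    exact mem_iUnion.2 ⟨x, by simpa using h1V⟩
  obtain ⟨T, hT⟩ := isCompact_univ.elim_finite_subcover
    (fun t : L => (fun x => t⁻¹ * x) ⁻¹' V)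
    (fun t => hVo.preimage (by fun_prop)) hcov
  classical
  let pick : L → H := fun t =>
    if h : ∃ x : H, t⁻¹ * f x ∈ V then h.choose else 1
  refine ⟨pick '' T, T.finite_toSet.image _, ?_⟩
  rw [eq_univ_iff_forall]
  intro x
  obtain ⟨t, ht, hxt⟩ := mem_iUnion₂.1 (hT (mem_univ (f x)))
  have hex : ∃ x : H, t⁻¹ * f x ∈ V := ⟨x, hxt⟩
  have hp : t⁻¹ * f (pick t) ∈ V := by
    have : pick t = hex.choose := dif_pos hex
    rw [this]
    exact hex.choose_spec
  refine mem_mul.2 ⟨pick t, mem_image_of_mem _ ht, (pick t)⁻¹ * x, hWU ?_, by group⟩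
  have := hV _ hp _ hxt
  have e : (t⁻¹ * f (pick t))⁻¹ * (t⁻¹ * f x) = f ((pick t)⁻¹ * x) := by
    rw [map_mul, map_inv]
    group
  rw [e] at this
  exact this

theorem precompact_BZ : Precompact BZ := precompact_of_inducing allChars isInducing_allChars

/-- Nested interval construction. -/
theorem exists_interval (c : ℕ → ℤ) (h0 : c 0 ≠ 0) (hc : ∀ k, 4 * |c k| ≤ |c (k + 1)|) (k : ℕ) :
    ∃ l : ℝ, ∀ t ∈ Icc l (l + 1 / (2 * |(c k : ℝ)|)), ∀ j ≤ k,
      Real.cos (2 * Real.pi * (t * c j)) ≤ 0 := by
  have hpos : ∀ k, 0 < |c k| := by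
    intro k
    induction k with
    | zero => exact abs_pos.2 h0
    | succ k ih => have := hc k; omega
  have key : ∀ (m : ℤ), m ≠ 0 → ∀ a : ℝ, ∃ l : ℝ, a ≤ l ∧ l + 1 / (2 * |(m : ℝ)|) ≤
      a + 2 / |(m : ℝ)| ∧ ∀ t ∈ Icc l (l + 1 / (2 * |(m : ℝ)|)),
        Real.cos (2 * Real.pi * (t * m)) ≤ 0 := by
    intro m hm a
    have hM : 0 < |(m : ℝ)| := abs_pos.2 (by exact_mod_cast hm)
    set M : ℝ := |(m : ℝ)| with hMdef
    refine ⟨((⌈a * M⌉ : ℤ) + 1 / 4) / M, ?_, ?_, ?_⟩
    · rw [le_div_iff₀ hM]
      have := Int.le_ceil (a * M)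
      linarith
    · have h1 := (Int.ceil_lt_add_one (a * M)).le
      have e1 : ((⌈a * M⌉ : ℤ) + 1 / 4) / M + 1 / (2 * M) = ((⌈a * M⌉ : ℤ) + 3 / 4) / M := by
        field_simp
        ring
      have e2 : a + 2 / M = (a * M + 2) / M := by field_simp
      rw [e1, e2]
      exact (div_le_div_iff_of_pos_right hM).2 (by linarith)
    · intro t ht
      obtain ⟨ht1, ht2⟩ := ht
      have e1 : ((⌈a * M⌉ : ℤ) + 1 / 4) / M + 1 / (2 * M) = ((⌈a * M⌉ : ℤ) + 3 / 4) / M := by
        field_simp
        ring
      rw [e1] at ht2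
      rw [div_le_iff₀ hM] at ht1
      rw [le_div_iff₀ hM] at ht2
      have habs : Real.cos (2 * Real.pi * (t * m)) = Real.cos (2 * Real.pi * (t * M)) := by
        rcases abs_choice (m : ℝ) with h | h
        · rw [hMdef, h]
        · rw [hMdef, h, ← Real.cos_neg]
          congr 1
          ring
      rw [habs]
      have e3 : Real.cos (2 * Real.pi * (t * M)) =
          Real.cos (2 * Real.pi * (t * M - ⌈a * M⌉)) := by
        rw [← Real.cos_sub_int_mul_two_pi (2 * Real.pi * (t * M)) ⌈a * M⌉]
        congr 1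
        ring
      rw [e3]
      apply Real.cos_nonpos_of_pi_div_two_le_of_le
      · have : 1 / 4 ≤ t * M - ⌈a * M⌉ := by linarith
        nlinarith [Real.pi_pos]
      · have : t * M - ⌈a * M⌉ ≤ 3 / 4 := by linarith
        nlinarith [Real.pi_pos]
  induction k with
  | zero =>
    obtain ⟨l, -, -, hl⟩ := key (c 0) h0 0
    exact ⟨l, fun t ht j hj => by
      obtain rfl : j = 0 := by omega
      exact hl t ht⟩
  | succ k ih =>
    obtain ⟨l, hl⟩ := ih
    obtain ⟨l', h1, h2, h3⟩ := key (c (k + 1)) (abs_pos.1 (hpos (k + 1))) l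
    refine ⟨l', fun t ht j hj => ?_⟩
    rcases Nat.lt_or_ge j (k + 1) with hjk | hjk
    · apply hl t _ j (by omega)
      refine ⟨h1.trans ht.1, ht.2.trans (h2.trans ?_)⟩
      have hk : 0 < |(c k : ℝ)| := by exact_mod_cast hpos k
      have hk1 : (4 : ℝ) * |(c k : ℝ)| ≤ |(c (k + 1) : ℝ)| := by exact_mod_cast hc k
      have : 2 / |(c (k + 1) : ℝ)| ≤ 1 / (2 * |(c k : ℝ)|) := by
        rw [div_le_div_iff₀ (by linarith) (by linarith)]
        linarith
      linarith
    · obtain rfl : j = k + 1 := by omega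
      exact h3 t ht

theorem exists_circle (c : ℕ → ℤ) (h0 : c 0 ≠ 0) (hc : ∀ k, 4 * |c k| ≤ |c (k + 1)|) :
    ∃ z : Circle, ∀ k, ((z ^ c k : Circle) : ℂ).re ≤ 0 := by
  set S : ℕ → Set Circle := fun k => {z | ∀ j ≤ k, ((z ^ c j : Circle) : ℂ).re ≤ 0} with hS
  have hcl : ∀ k, IsClosed (S k) := by
    intro k
    have : S k = ⋂ j, ⋂ (_ : j ≤ k), {z : Circle | ((z ^ c j : Circle) : ℂ).re ≤ 0} := by
      ext z; simp [hS]
    rw [this]
    refine isClosed_iInter fun j => isClosed_iInter fun _ => ?_
    exact isClosed_le (Complex.continuous_re.comp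
      (continuous_subtype_val.comp (continuous_zpow (c j)))) continuous_const
  obtain ⟨z, hz⟩ := IsCompact.nonempty_iInter_of_sequence_nonempty_isCompact_isClosed S
    (fun k z hz j hj => hz j (by omega))
    (fun k => by
      obtain ⟨l, hl⟩ := exists_interval c h0 hc k
      refine ⟨Circle.exp (2 * Real.pi * l), fun j hj => ?_⟩
      have h := hl l ⟨le_rfl, by
        have : (0 : ℝ) ≤ 1 / (2 * |(c k : ℝ)|) := by positivity
        linarith⟩ j hj
      rw [← Circle.exp_zsmul, Circle.coe_exp, Complex.exp_ofReal_mul_I_re, zsmul_eq_mul]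
      have e : (c j : ℝ) * (2 * Real.pi * l) = 2 * Real.pi * (l * c j) := by ring
      rw [e]
      exact h)
    (hcl 0).isCompact hcl
  exact ⟨z, fun k => mem_iInter.1 hz k k le_rfl⟩

/-- Compact subsets of the integers with the Bohr topology are finite. -/
theorem finite_of_isCompact {K : Set BZ} (hK : IsCompact K) : K.Finite := by
  by_contra hinf
  have hinf : K.Infinite := hinf
  -- a very lacunary sequence in `K`
  have hunb : ∀ N : ℤ, ∃ x ∈ K, N ≤ |x.toInt| := by
    intro N
    by_contra hcon
    push Not at hcon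
    apply hinf
    have : K ⊆ BZ.toInt ⁻¹' (Icc (-N) N) := by
      intro x hx
      have := hcon x hx
      rw [abs_lt] at this
      exact ⟨by omega, by omega⟩
    exact ((finite_Icc _ _).preimage toInt_injective.injOn).subset this
  choose nxt hnxtK hnxt using hunb
  let b : ℕ → BZ := fun k => Nat.rec (nxt 1) (fun _ x => nxt (10 * (|x.toInt| + 1))) k
  have hbK : ∀ k, b k ∈ K := by
    intro k
    cases k with
    | zero => exact hnxtK _
    | succ k => exact hnxtK _
  have hb : ∀ k, 10 * (|(b k).toInt| + 1) ≤ |(b (k + 1)).toInt| := fun k => hnxt _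
  have hmono : StrictMono fun k => |(b k).toInt| := strictMono_nat_of_lt_succ fun k => by
    have := hb k
    have h0 := abs_nonneg (b k).toInt
    change |(b k).toInt| < |(b (k + 1)).toInt|
    omega
  have hinj : Function.Injective b := fun i j hij => by
    apply hmono.injective
    change |(b i).toInt| = |(b j).toInt|
    rw [hij]
  have hBinf : (range b).Infinite := infinite_range_of_injective hinj
  obtain ⟨n, -, hn⟩ := hBinf.exists_accPt_of_subset_isCompact hK
    (range_subset_iff.2 hbK)
  -- choose a large index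
  have hlarge : ∀ k : ℕ, (k : ℤ) ≤ |(b k).toInt| := by
    intro k
    induction k with
    | zero => simp
    | succ k ih =>
      have := hb k
      have h0 := abs_nonneg (b k).toInt
      push_cast
      omega
  set k₀ : ℕ := (10 * (|n.toInt| + 1)).toNat with hk₀
  have hk₀' : 10 * (|n.toInt| + 1) ≤ |(b k₀).toInt| := by
    refine le_trans ?_ (hlarge k₀)
    have h0 := abs_nonneg n.toInt
    omega
  have hge : ∀ k, 10 * (|n.toInt| + 1) ≤ |(b (k₀ + k)).toInt| := by
    intro k
    have h1 : |(b k₀).toInt| ≤ |(b (k₀ + k)).toInt| := hmono.monotone (by omega)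
    omega
  let c : ℕ → ℤ := fun k => (b (k₀ + k)).toInt - n.toInt
  have hclow : ∀ k, |(b (k₀ + k)).toInt| - |n.toInt| ≤ |c k| := fun k =>
    abs_sub_abs_le_abs_sub _ _
  have hcup : ∀ k, |c k| ≤ |(b (k₀ + k)).toInt| + |n.toInt| := fun k => abs_sub _ _
  have hc0 : c 0 ≠ 0 := by
    have h1 := hclow 0
    have h2 := hge 0
    have h3 := abs_nonneg n.toInt
    intro h
    rw [h, abs_zero] at h1
    omega
  have hc : ∀ k, 4 * |c k| ≤ |c (k + 1)| := by
    intro k
    have h1 := hclow (k + 1)
    have h2 := hcup k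
    have h3 := hge k
    have h4 := hb (k₀ + k)
    have h5 : b (k₀ + (k + 1)) = b (k₀ + k + 1) := rfl
    rw [h5] at h1
    have h6 := abs_nonneg n.toInt
    omega
  obtain ⟨z, hz⟩ := exists_circle c hc0 hc
  -- the neighbourhood of `n`
  have hopen : IsOpen {x : BZ | 0 < ((z ^ (x.toInt) * (z ^ n.toInt)⁻¹ : Circle) : ℂ).re} := by
    refine isOpen_lt continuous_const (Complex.continuous_re.comp
      (continuous_subtype_val.comp ?_))
    exact (continuous_char z).mul continuous_const
  have hfin : {x : BZ | ∃ k < k₀, b k = x ∧ x ≠ n}.Finite := by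
    refine ((finite_Iio k₀).image b).subset ?_
    rintro x ⟨k, hk, rfl, -⟩
    exact mem_image_of_mem b hk
  have hnhd : {x : BZ | 0 < ((z ^ (x.toInt) * (z ^ n.toInt)⁻¹ : Circle) : ℂ).re} ∩
      {x : BZ | ∃ k < k₀, b k = x ∧ x ≠ n}ᶜ ∈ 𝓝 n := by
    refine Filter.inter_mem (hopen.mem_nhds ?_) (hfin.isClosed.isOpen_compl.mem_nhds ?_)
    · change 0 < ((z ^ (n.toInt) * (z ^ n.toInt)⁻¹ : Circle) : ℂ).re
      rw [mul_inv_cancel]
      simp
    · rintro ⟨k, -, -, h⟩
      exact h rfl
  rw [accPt_iff_nhds] at hn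
  obtain ⟨y, ⟨⟨hy1, hy2⟩, k, rfl⟩, hyn⟩ := hn _ hnhd
  rcases Nat.lt_or_ge k k₀ with hk | hk
  · exact hy2 ⟨k, hk, rfl, hyn⟩
  · obtain ⟨i, rfl⟩ := Nat.exists_eq_add_of_le hk
    have h1 := hz i
    have h2 : (z ^ c i : Circle) = z ^ ((b (k₀ + i)).toInt) * (z ^ n.toInt)⁻¹ :=
      zpow_sub z _ _
    rw [h2] at h1
    exact absurd hy1 (not_lt.2 h1)

/-- The identification of the circle with the dual of `BZ`. -/
noncomputable def circleChar (z : Circle) : PontryaginDual BZ :=
  { toFun := fun n => z ^ n.toInt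
    map_one' := zpow_zero z
    map_mul' := fun m n => zpow_add z m.toInt n.toInt
    continuous_toFun := continuous_char z }

theorem circleChar_apply (z : Circle) (n : BZ) : circleChar z n = z ^ n.toInt := rfl

theorem continuous_circleChar : Continuous circleChar := by
  refine (ContinuousMonoidHom.isInducing_toContinuousMap BZ Circle).continuous_iff.2 ?_
  refine ContinuousMap.continuous_compactOpen.2 fun K hK U hU => ?_
  have hKf := finite_of_isCompact hK
  have : {x : Circle | MapsTo ((ContinuousMonoidHom.toContinuousMap ∘ circleChar) x) K U} =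
      ⋂ n ∈ K, {z : Circle | z ^ n.toInt ∈ U} := by
    ext z
    simp only [mem_iInter]
    rfl
  rw [this]
  exact hKf.isOpen_biInter fun n _ => hU.preimage (continuous_zpow n.toInt)

/-- If `α_G` is continuous and `p : G → BZ` is a continuous homomorphism, then `ker p` contains
a neighbourhood of the identity. -/
theorem ker_mem_nhds {G : Type u} [CommGroup G] [TopologicalSpace G] (p : G →ₜ* BZ)
    (hα : Continuous (evalHom G)) : {g : G | p g = 1} ∈ 𝓝 (1 : G) := by
  let Φ : Circle → PontryaginDual G := fun z => PontryaginDual.map p (circleChar z)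
  have hΦ : Continuous Φ := (PontryaginDual.map p).continuous_toFun.comp continuous_circleChar
  have hC : IsCompact (range Φ) := isCompact_range hΦ
  have hopen : IsOpen {ξ : PontryaginDual (PontryaginDual G) |
      MapsTo (fun χ => ξ χ) (range Φ) {w : Circle | 0 < (w : ℂ).re}} := by
    refine isOpen_induced (ContinuousMap.isOpen_setOfPred_mapsTo hC ?_)
    exact isOpen_lt continuous_const (Complex.continuous_re.comp continuous_subtype_val)
  have hpre := hopen.preimage hα
  refine Filter.mem_of_superset (hpre.mem_nhds ?_) ?_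
  · rintro _ ⟨z, rfl⟩
    change 0 < ((evalHom G 1 (Φ z) : Circle) : ℂ).re
    rw [map_one]
    simp
  · intro g hg
    by_contra hne
    have hn : (p g).toInt ≠ 0 := fun h0 => hne (toInt_injective (h0.trans toInt_one.symm))
    obtain ⟨z, hz⟩ := exists_pow_eq_neg_one hn
    have h1 : 0 < ((evalHom G g (Φ z) : Circle) : ℂ).re := hg (mem_range_self z)
    have h2 : evalHom G g (Φ z) = z ^ (p g).toInt := rfl
    rw [h2, hz] at h1
    norm_num at h1

instance : Infinite BZ := inferInstanceAs (Infinite (Multiplicative ℤ))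

/-- No precompact group with continuous `α_G` maps continuously onto `BZ`. -/
theorem no_surjection {G : Type u} [CommGroup G] [TopologicalSpace G] (hG : Precompact G)
    (hα : Continuous (evalHom G)) (p : G →ₜ* BZ) : ¬ Function.Surjective p := by
  intro hp
  obtain ⟨F, hF, hFU⟩ := hG _ (ker_mem_nhds p hα)
  have : (univ : Set BZ) ⊆ p '' F := by
    intro y _
    obtain ⟨x, rfl⟩ := hp y
    obtain ⟨f, hf, u, hu, hfu⟩ := mem_mul.1 (hFU ▸ mem_univ x : x ∈ F * {g : G | p g = 1})
    refine ⟨f, hf, ?_⟩
    have hu' : p u = 1 := hu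
    rw [← hfu, map_mul, hu', mul_one]
  exact infinite_univ ((hF.image p).subset this)

/-- `BZ` is not discrete. -/
theorem not_mem_nhds : ({1} : Set BZ) ∉ 𝓝 (1 : BZ) := by
  intro h
  obtain ⟨F, hF, hFU⟩ := precompact_BZ _ h
  rw [singleton_one, mul_one] at hFU
  exact infinite_univ (hFU ▸ hF)

/-- No group whatsoever with continuous `α_G` has an open continuous homomorphism onto `BZ`. -/
theorem no_quotient {G : Type u} [CommGroup G] [TopologicalSpace G]
    (hα : Continuous (evalHom G)) (p : G →ₜ* BZ) : ¬ IsOpenMap p := by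
  intro ho
  have h := ho.image_mem_nhds (ker_mem_nhds p hα)
  rw [map_one] at h
  refine not_mem_nhds (Filter.mem_of_superset h ?_)
  rintro _ ⟨g, hg, rfl⟩
  exact hg

end Pool.Agent.V1160.BohrZ
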